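import Pool.Agent.MP_f5ca18_al.H67.Q2.Bridge

set_option autoImplicit false

namespace Pool.Agent.Results.MP_f5ca18_al.Index

open Pool.Agent.MP_f5ca18_al.Sub

/-- The set of Jones indices of finite depth subfactors has no accumulation point from above. -/
theorem result (a : ℝ) : ∃ ε : ℝ, 0 < ε ∧
    ∀ T : Tower, T.FiniteDepth → T.index ∉ Set.Ioo a (a + ε) :=
  Pool.Agent.MP_f5ca18_al.H67.Q2.final a

end Pool.Agent.Results.MP_f5ca18_al.Index
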